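import Pool.Agent.helper22.FI3.SpecCQ

/-!
# JNB: the characters of the quotient in the block
-/

set_option autoImplicit false

namespace Pool.Agent.FI3

open Pool.Agent.helper58.DC Pool.Agent.DI Pool.Agent.GR Pool.Agent.OB Pool.Agent.DR Pool.Agent.FI

theorem JNB (hJBL : JBL_stmt) (hJIN : JIN_stmt) : JNB_stmt := by
  intro p M hS G Gb _ _ _ _ L Z π hQ χ hχ θ hθ Cb hCb
  haveI : Fact p.Prime := ⟨hS.pr⟩
  obtain ⟨hinj, hirr, hsur, hz⟩ := hJIN p G Gb L Z π hQ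
  have himg : BZ M L θ Z (pre π (nrm Cb)) = infl π '' (Blk M χ (nrm Cb)) := by
    ext φ
    constructor
    · rintro ⟨h1, h2, h3⟩
      obtain ⟨f, hf, rfl⟩ := hsur (nrm Cb) φ h1 h3
      refine ⟨f, ⟨hf, ?_⟩, rfl⟩
      exact (hJBL p M hS G Gb L Z π hQ χ hχ Cb hCb f hf).2 (h2.trans hθ)
    · rintro ⟨f, ⟨hf, hi⟩, rfl⟩
      refine ⟨hirr _ f hf, ?_, (hz f).2⟩
      exact ((hJBL p M hS G Gb L Z π hQ χ hχ Cb hCb f hf).1 hi).trans hθ.symm
  rw [himg]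
  exact Set.ncard_image_of_injOn (fun f _ f' _ h => hinj f f' h)

end Pool.Agent.FI3
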